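import Pool.Agent.Y130.MM.Final

/-!
# The motivic Mumford-Tate conjecture for motives of any weight with isolated Frobenius eigenvalues

Let `M` be a motive (of André, or for absolute Hodge cycles) of arbitrary weight `w` over a finitely
generated field, `N` a second motive, and let `G` be the group of the points of the motivic Galois
group of `M ⊕ N` (and of the Tate motives) with values in an algebraic closure `K` of `ℚ_ℓ`; the
Galois group `Γ` maps to `G` by `ι`.  Let the realization `V` of `M`, with coefficients in `K`, be a
direct summand of a sum of copies of a representation `T` of `G`, which is the sum of subspaces
`U c`, stable under a subgroup of finite index of `G`, and irreducible under all subgroups of finite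
index of `Γ`; the polarization pairs `U c` with `U (star c)` only.  (For example, `T = V` is the
realization of `M` itself if it is irreducible under all subgroups of finite index; then there is no
condition on algebraic cycles at all.)  Suppose that each `U c`, which is not a line, contains an
eigenvector of some Frobenius element with an ISOLATED eigenvalue `a`: it is simple on `T`; a relation
`a δ = β γ` with eigenvalues `β`, `γ`, `δ` on `T` holds, up to roots of unity, only for `β = a` or
`γ = a` or `a δ = q ^ w`; and no power of the quotient of another eigenvalue on `T` by `a` is in the
group `H F` generated by the eigenvalues of the Frobenius element on `N` and on the Tate motive; and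
that for `star c ≠ c` the determinant of some Frobenius element on `U c` is multiplicatively
independent of the determinants on the other blocks and of `H F`.  So there are only conditions on
single Frobenius polynomials; there is no condition on the Hodge numbers, the inertia groups, the
weight, and no condition on `N`.

THEOREM.  The motivic Mumford-Tate conjecture holds for `M ⊕ N` if and only if it holds for `N`; in
particular it holds for `M`.

Here the motivic Mumford-Tate conjecture for `M ⊕ N` is the statement that all Tate classes in all
the representations `Hom (M ^ n, E)` and their Tate twists are motivated, for all `n` and all `E` in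
the tannakian category of `N` (with the Tate motives).  (As the dual of `M` is a Tate twist of `M` and
the groups `G` and the Zariski closure of the image of `Γ` are reductive here, this is the equality
of the identity components of these groups.)  This includes the tensor constructions in which
determinants of orthogonal blocks occur.

The proof.  The Lie algebra of the operators on `T` which kill all Tate classes contains, by the
isolated eigenvalue and the strong irreducibility, the full general linear, symplectic and orthogonal
Lie algebras of the blocks.  A form killed by these Lie algebras is multiplied by a power of `q`
by all elements of a subgroup of finite index of the motivic Galois group: here it is shown by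
induction on the number of variables, by means of the Casimir identity and contractions, that block
isometries of determinant one on the orthogonal blocks fix such forms; the elements without
contractions are products of determinants.  So a Tate class with coefficients in `E` is a combination
of products of motivated forms and Tate classes of `E`.
-/

namespace Pool.Agent.Results.MP_de8692_ag.IsolatedMotives

open Module Pool.Agent.Y130 Pool.Agent.Y130.MT Pool.Agent.Y130.MM

/-- **The motivic Mumford-Tate conjecture for motives with isolated Frobenius eigenvalues.** -/
theorem result {K : Type} [Field K] [CharZero K] [IsAlgClosed K]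
    -- the Galois group, the motivic Galois group, and the character of the Lefschetz motive
    {Γ G : Type} [Group Γ] [Group G] (ι : Γ →* G) (q : G →* Kˣ)
    -- the motive `M` of weight `w`
    (w : ℕ) {V : Type} [AddCommGroup V] [Module K V] (ρ : Representation K G V)
    {T : Type} [AddCommGroup T] [Module K T] [FiniteDimensional K T] (τ : Representation K G T)
    (hV : SummandOfCopies τ ρ) (B : T →ₗ[K] T →ₗ[K] K) {C : Type} [Finite C]
    (U : C → Submodule K T) (star : C → C) (G₀ : Subgroup G) (H : Γ → Subgroup Kˣ)
    (hM : IsolatedMotive ι q w τ B U star G₀ H)
    -- the representations in the tannakian category of `N`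
    {I : Type} (E : I → Type) [∀ i, AddCommGroup (E i)] [∀ i, Module K (E i)]
    [∀ i, FiniteDimensional K (E i)] (σ : ∀ i, Representation K G (E i))
    (hN : ∀ i, EigenvaluesIn ι H (σ i)) :
    ((∀ n i, TateMotivated ι q (homRep n ρ (σ i))) ↔ ∀ i, TateMotivated ι q (σ i)) ∧
    ((∀ j : ℤ, j ≠ 0 → ∀ Δ : Subgroup Γ, Δ.FiniteIndex → ∃ s ∈ Δ, q (ι s) ^ j ≠ 1) →
      ∀ n, TateMotivated ι q (homRep n ρ (Representation.trivial K G K))) := by
  refine ⟨⟨fun h i => of_homRep (h 0 i), fun h n i => main_V hV hM (hN i) (h i) n⟩,
    fun hq n => ?_⟩
  refine main_V hV hM (fun F β hβ => ?_) (fun j e he => ?_) n
  · obtain ⟨x, hx0, hx⟩ := hβ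
    refine ⟨1, Subgroup.one_mem _, ?_⟩
    have h1 : x = β * x := hx
    rw [Units.val_one]
    exact mul_right_cancel₀ hx0 (by rw [← h1, one_mul])
  · obtain ⟨Δ, hΔ, h⟩ := he
    by_cases hj : j = 0
    · refine ⟨⊤, inferInstance, fun g _ => ?_⟩
      rw [hj, zpow_zero, Units.val_one, one_smul]
      rfl
    · obtain ⟨s, hs, hs1⟩ := hq j hj Δ hΔ
      have h1 : e = ((q (ι s) ^ j : Kˣ) : K) * e := h s hs
      have h2 : e = 0 := by
        by_contra h0
        apply hs1
        apply Units.ext
        rw [Units.val_one]
        exact mul_right_cancel₀ h0 (by rw [← h1, one_mul])
      refine ⟨⊤, inferInstance, fun g _ => ?_⟩
      rw [h2, map_zero, smul_zero]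

end Pool.Agent.Results.MP_de8692_ag.IsolatedMotives
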