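import Mathlib
import Pool.Agent.Y114.RM.All3

/-!
# The motivic Mumford-Tate conjecture from one Frobenius torus and regular unipotent elements

Let `M i` be finitely many objects of the category of motives of André (or of motives for absolute
Hodge cycles) over a finitely generated field `k` of characteristic zero, pure of weight `w i`.  They
extend to a smooth model `U` of `k`; let `Γ` be the fundamental group of `U` (a quotient of the
absolute Galois group of `k`), `ρ i` the action of `Γ` on the `ℓ`-adic realization of `M i`, `V` the
direct sum of the realizations, and `𝔤` the Lie algebra (over `ℚ_ℓ`) of the motivic Galois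
group of the direct sum `M` of the `M i`; so the image of `𝔤` in the endomorphisms of the `i`-th summand
is the Lie algebra of the motivic Galois group of `M i`.  The property `Motivic ρ 𝔤` (structure
`IsMotivic`) states the properties of `𝔤` which are used: it is a Lie algebra, it respects the
direct sum, it is reductive (trace form nondegenerate, completely reducible on `V`), it consists of all
endomorphisms which kill the tensors killed by `𝔤`, and these tensors are Tate tensors (fixed by a
subgroup of finite index of `Γ`).  Nothing is assumed on the type of the group, on the Hodge
numbers, or on the semisimplicity of the Galois action.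

Let `s` be a closed point of `U`, with residue field the number field `F`; it induces a homomorphism
(again `s`) from the absolute Galois group of `F` to `Γ`, and `ρs` is the restriction of `ρ`, that is
the realization of the fibre at `s`.  (If `k = F` is a number field `Γ` is its Galois group and `s` the
identity.)  Suppose that

* there are three primes `p ≠ ℓ`, unramified in `F`, such that the fibre has good reduction at the
  places above `p`, with Frobenius polynomials in `ℚ[X]` which are pure of weight `w i`;
* at ONE place `v₀`, above one of these primes `p₀`, the Frobenius tori have maximal rank: there are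
  `r₀` multiplicatively independent numbers among the Frobenius eigenvalues of the `M i`, and the rank of
  `𝔤` is at most `r₀` (some element of `𝔤` has a centralizer of at most this dimension); and there
  are `r i` multiplicatively independent Frobenius eigenvalues of `M i`.
  If there are several places `v` above `p₀` (so `F ≠ ℚ`) they are supposed to be independent: if a
  product of numbers `x v` in the groups generated by the quotients `a / b` of the roots of the
  Frobenius polynomials at `v` is a root of unity, then all `x v` are roots of unity;
* for every `i` there is an element `γ` of the Galois group of `F` (for example in an inertia group, at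
  any place) which acts unipotently on all realizations and as a regular unipotent element of the
  motivic group of `M i`: its centralizer in the Lie algebra of this group has at most the
  dimension `r i`.

Theorem.  Then `V` is semisimple for all subgroups of finite index of `Γ`, and the Tate tensors are
the tensors killed by `𝔤`: every tensor on `V` and its dual space which is fixed by a subgroup of
finite index of the Galois group is a combination of motivated classes (absolute Hodge classes).
So the Lie algebra of the `ℓ`-adic monodromy group `G_ℓ(M)` is `𝔤` and `G_ℓ(M)° = G_σ(M)` (for motives
for absolute Hodge cycles the Mumford-Tate group `G_σ(M)` is the identity component of the motivic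
Galois group, by Deligne).

In comparison with `MP_bbcdf5_ag.RegularMonodromy` nothing is supposed on the places where the
unipotent elements come from: there are no conditions on the Frobenius elements and on the other places
above the same prime, the reduction may be only potentially semistable there, and the place can be
above `ℓ`.  On the other hand the places above `p₀` have to be independent.

The proof.  Let `L` be the Lie algebra of the endomorphisms which kill the Tate tensors of `ρs` (and
preserve the stable subspaces).  (1) The determinant of the adjoint action on `L` is of finite order
at `v₀` (`ℓ`-adic six exponentials theorem, library `Pool.Agent.Y115`, and independence).  So the torus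
of the Frobenius element acts with trace zero on `L`, the trace form of `L` is nondegenerate, and `V` is
semisimple.  (2) The block `L i` is reductive and contains the logarithm `N` of the regular unipotent
element; by the theorem of Jacobson and Morozov in `L i` it is a module over a triple of `N`, and it
contains the centralizer of `N` in `𝔤 i`, which has the dimension `r i ≤ rank L i`.  So
`L i = 𝔤 i`.  (3) As `L` contains a torus which is its own centralizer in `𝔤`, and the root spaces
are one-dimensional, `L = 𝔤`.
-/

set_option autoImplicit false

namespace Pool.Agent.Results.MP_de8692_ag.MaximalTorusRegularUnipotents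

open NumberField IsDedekindDomain Polynomial Module Pool.Agent.Y114.TF Pool.Agent.Y114.GF
  Pool.Agent.Y114.MU Pool.Agent.Y114.RM Pool.Agent.H204R3.GP

theorem result {Γ : Type} [Group Γ] {ι : Type} [Fintype ι] [DecidableEq ι] {n : ι → ℕ} {ℓ : ℕ}
    [Fact ℓ.Prime]
    -- the `ℓ`-adic realizations of the `M i`, and the Lie algebra of the motivic Galois group
    (ρ : Reps Γ n ℓ) (𝔤 : EndSpace n ℓ) (h𝔤 : Motivic ρ 𝔤)
    -- a point with values in the number field `F`; the realizations at this point
    {F : Type} [Field F] [NumberField F] (s : Gal(AlgebraicClosure F/F) →* Γ)
    (ρs : Reps Gal(AlgebraicClosure F/F) n ℓ) (hs : ρs = restrictTo ρ s) (hρs : Conts ρs)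
    (w : ι → ℤ)
    -- three primes of good reduction
    (P : HeightOneSpectrum (𝓞 F) → ι → ℚ[X]) (T : Set ℕ) (hT3 : 3 ≤ T.encard)
    (hT : ∀ p ∈ T, p.Prime ∧ p ≠ ℓ ∧ UnramifiedIn F p)
    (hP : ∀ p ∈ T, ∀ v, Above v p → ∀ i, GoodReduction ρs i (w i) v (P v i))
    -- one Frobenius torus of maximal rank
    (p₀ : ℕ) (hp₀ : p₀ ∈ T) (hind : IndependentPlaces P p₀)
    (v₀ : HeightOneSpectrum (𝓞 F)) (hv₀ : Above v₀ p₀)
    (hmax : ∃ r₀, IndepRoots r₀ (Set.range (P v₀)) ∧ RankLE 𝔤 r₀)
    (r : ι → ℕ) (hr : ∀ i, IndepRoots (r i) {P v₀ i})
    -- regular unipotent elements
    (hreg : ∀ i, ∃ γ, (∀ j, Unip ρs j γ) ∧ cenDim ρs 𝔤 i γ ≤ r i) :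
    Semisimple ρ ∧ TateTensorsOf ρ 𝔤 := by
  subst hs
  obtain ⟨r₀, hr₀, hrk⟩ := hmax
  obtain ⟨h1, h2⟩ := main4 (restrictTo ρ s) inputs inputs2 inputs3 hρs 𝔤 (motivic_restrict h𝔤 s) P
    T hT3 hT (fun p hp v hv => goodPlace_of _ (hP p hp v hv)) hp₀ hind hv₀ r₀
    (independentRoots_range hr₀) hrk r (fun i => independentRoots_one (hr i)) hreg
  exact of_restrict inputs h𝔤 s h1 h2

end Pool.Agent.Results.MP_de8692_ag.MaximalTorusRegularUnipotents
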