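import Pool.Agent.Y456.LG.Mt
import Pool.Agent.Y456.LG.Mot

/-!
# The motivic Mumford–Tate conjecture and the motive of one linear section of `GL_m`

Let `k` be a field of characteristic zero and `Mot_k` the category of pure motives over `k` (for absolute
Hodge cycles, or motivated cycles), with the weight graded pieces `gr^W_w H^j_c(X)`, given by their known
properties (`IsGraded`, `IsTensor`). A sparse linear section of `GL_m` is the scheme `U_M` of the points `x`
of the affine space such that the matrix `M(x)` is invertible, where `M` is a square matrix each of whose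
entries is a constant (in the set `S`) or one of the variables, in which each variable occurs, with at most
three nonzero entries in every row and in every column and with nonzero determinant (`Good S M`). The
constants are arbitrary (`S = k`), or they are `0` and `1` if all elements of `k` are fractions of integers
(`k = ℚ`). `h(U_M)` (`hSec D M`) is the direct sum of the pieces `gr^W_w H^j_c(U_M)`.

Let `ω` be a tensor functor on `Mot_k` (for the conjecture: the `ℓ`-adic realisation, over an algebraic
closure of `ℚ_ℓ`), and let `H`, `H'` be two groups of tensor automorphisms of `ω` (for the conjecture: the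
groups of points of the identity component of the `ℓ`-adic monodromy group and of the Mumford–Tate group of
the whole category). Their images in `Aut ω(N)` are denoted `imOn H N` and `imOn H' N`. The conjecture for
`N` says that they are equal.

1. Every motive `N` is in the Tannakian category `⟨h(U_M)⟩` and, up to a Tate twist, a direct summand of
   `h(U_M)`, for ONE sparse linear section `U_M`.
2. For every motive `N` there is a sparse linear section `U_M` such that for all `ω`, `H`, `H'`: if the
   images of `H` and `H'` in `Aut ω(h(U_M))` are equal, then their images in `Aut ω(N)` are equal (and the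
   same for inclusions).
3. So the conjecture is true for all motives if and only if it is true for the motives `h(U_M)` of the
   sparse linear sections of `GL_m`.
-/

set_option autoImplicit false

open CategoryTheory CategoryTheory.Limits MonoidalCategory AlgebraicGeometry MvPolynomial
  Pool.Agent.Y116.UV Pool.Agent.Y101.Th Pool.Agent.Y691.TU Pool.Agent.Z125.UN Pool.Agent.Y456.LG

namespace Pool.Agent.Results.MP_de8692_ag.OneLinearSection

universe v u v' u'

/-- The motivic Mumford–Tate conjecture is a question about single sparse linear sections of `GL_m`. -/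
theorem result {k : Type} [Field k] [CharZero k] (S : Set k)
    (hS : S = Set.univ ∨ (S = {0, 1} ∧ IsFrac k)) {C : Type u} [Category.{v} C] [Abelian C]
    [HasFiniteBiproducts C] [MonoidalCategory C] [MonoidalPreadditive C] [BraidedCategory C]
    {D : Graded k C} {T : C} (hC : Semisimple C) (hD : IsGraded D) (hT : IsTensor D T) :
    (∀ N : C, ∃ (d m : ℕ) (M : Matrix (Fin m) (Fin m) (MvPolynomial (Fin d) k)),
      Good S M ∧ InGen (hSec D M) N) ∧
    (∀ N : C, ∃ (d m : ℕ) (M : Matrix (Fin m) (Fin m) (MvPolynomial (Fin d) k)), Good S M ∧
      (∃ (n : ℕ) (s : Pool.Agent.Y691.TU.tw D.L n N ⟶ hSec D M)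
        (r : hSec D M ⟶ Pool.Agent.Y691.TU.tw D.L n N), s ≫ r = 𝟙 _) ∧
      ∀ (V : Type u') [Category.{v'} V] [MonoidalCategory V] (ω : C ⥤ V) [ω.Monoidal]
        (H H' : Subgroup (Aut ω)), Tensorial H → Tensorial H' →
        (imOn H (hSec D M) ≤ imOn H' (hSec D M) → imOn H N ≤ imOn H' N) ∧
        (imOn H (hSec D M) = imOn H' (hSec D M) → imOn H N = imOn H' N)) ∧
    ∀ (V : Type u') [Category.{v'} V] [MonoidalCategory V] (ω : C ⥤ V) [ω.Monoidal]
      (H H' : Subgroup (Aut ω)), Tensorial H → Tensorial H' →
      ((∀ N : C, imOn H N = imOn H' N) ↔
        ∀ (d m : ℕ) (M : Matrix (Fin m) (Fin m) (MvPolynomial (Fin d) k)), Good S M →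
          imOn H (hSec D M) = imOn H' (hSec D M)) := by
  have hE := enough_or hS
  refine ⟨fun N => single_all hE hC hD hT N, fun N => ?_, fun V _ _ ω _ H H' h h' => ?_⟩
  · obtain ⟨d, m, M, hM, ⟨n, s, r, hr⟩, h⟩ := groups_one.{v, u, v', u'} hE hC hD hT N
    exact ⟨d, m, M, hM, ⟨n, s, r, hr⟩, fun V _ _ ω _ H H' h1 h2 => h ω H H' h1 h2⟩
  · refine ⟨fun hN d m M _ => hN _, fun hM N => ?_⟩
    obtain ⟨d, m, M, h1, -, h2⟩ := groups_one.{v, u, v', u'} hE hC hD hT N
    exact (h2 ω H H' h h').2 (hM d m M h1)

end Pool.Agent.Results.MP_de8692_ag.OneLinearSection
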