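import Pool.Agent.Y132.AH.MT

/-!
# The Mumford-Tate conjecture for products with varieties of symplectic type

Let `k` be a finitely generated field of characteristic zero, embedded into `ℂ`, with absolute
Galois group `Γ`, and `ℓ` a prime. We fix an isomorphism of `ℂ` with an algebraic closure `K` of
`ℚ_ℓ`. The cohomology `W` of smooth projective varieties over `k` with coefficients in `K` is the
`ℓ`-adic cohomology with the action of `Γ` (`GaloisData`) and by Artin's comparison theorem also the
singular cohomology, with the action of the automorphisms of `K` on the coefficients and the Hodge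
decomposition (`HodgeData`).

Let `X i` be a family of odd-dimensional smooth projective varieties, which may be infinite, such
that homological and numerical equivalence coincide on `X i`, the transcendental cohomology `T i` of
`X i` is concentrated in the middle degree, and the Mumford-Tate group and the Galois group act
irreducibly on the Lie algebra of the skew operators on `T i`, and these adjoint representations are
pairwise not isomorphic. Let `Z` be any smooth projective variety.

First part: if the Hodge types and, at some place, the slopes of Frobenius of `T i` are separated
from those of the generators of the cohomology of `Z`, then the Mumford-Tate conjecture holds for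
all powers of a product of `Z` and powers of the `X i` if and only if it holds for all powers of `Z`.

Second part: in general there is a finite set `B` of indices such that the Mumford-Tate conjecture
for the product of `Z` and powers of the `X i` is equivalent to the conjecture for finitely many small
products of `Z` and `X i` with `i ∈ B`.
-/

open CategoryTheory AlgebraicGeometry

universe u

namespace Pool.Agent.Results.MP_de8692_ag.SymplecticProducts

open Pool.Agent.H914 Pool.Agent.H914.VarClass Pool.Agent.H914.VarClass.Obj Pool.Agent.Y132.AH

variable {k : Type u} [Field k] {𝒱 : VarClass k} {ops : CycleOps 𝒱}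

theorem result (W : WeilCohomology.{u, 0} ops) [IsAlgClosed W.K] (Ψ : HodgeData W) {Γ : Type}
    [Group Γ] (G : GaloisData W Γ) {ι : Type} [DecidableEq ι] (X : ι → 𝒱.Obj) (Z : 𝒱.Obj)
    (hH : SpFamily Ψ X) (hG : BigFamily G X) :
    ((∀ i, SlopeSep G (X i) Z) → (∀ i, TypeSep Ψ (X i) Z) → ∀ L : List ι,
      (MumfordTateAll Ψ G (prodList X Z L) ↔ MumfordTateAll Ψ G Z)) ∧
    ∃ B : Finset ι, ∑ i ∈ B, trDim W (X i) ≤ 2 * totDim W Z ∧
      (∀ i ∈ B, ¬(SlopeSep G (X i) Z ∧ TypeSep Ψ (X i) Z)) ∧
      ∀ L : List ι, MumfordTate Ψ G (prodList X Z L) ↔
        ∀ L' : List ι, L'.Sublist L → SmallDim W X Z B L' →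
          MumfordTate Ψ G (prodList X Z L') :=
  ⟨fun h1 h2 L => mt_all G Ψ Z hH (bigFamily_ad G (spFamily_odd Ψ hH) hG) h1 h2 L,
    mt_iff' G Ψ Z hH hG⟩

end Pool.Agent.Results.MP_de8692_ag.SymplecticProducts
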